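import Mathlib

set_option autoImplicit false

namespace Pool.Agent.Q127.F6

open Finset Module

/-- number of nonzero coordinates -/
def wt {n : ℕ} (x : Fin n → ZMod 2) : ℕ := (univ.filter fun i => x i ≠ 0).card

/-- A coset of codimension `d` contains a vector of weight at most `d`. -/
theorem exists_small_weight {n : ℕ} (V : Submodule (ZMod 2) (Fin n → ZMod 2)) (z : Fin n → ZMod 2) :
    ∃ v ∈ V, wt (z + v) + finrank (ZMod 2) V ≤ n := by
  classical
  let q := V.mkQ
  let b : Fin n → ((Fin n → ZMod 2) ⧸ V) := fun i => q (Pi.single i 1)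
  obtain ⟨κ, a, ha, hspan, hli⟩ := exists_linearIndependent' (ZMod 2) b
  have hfin : Finite κ := Finite.of_injective a ha
  have : Fintype κ := Fintype.ofFinite κ
  have hcard : Fintype.card κ ≤ finrank (ZMod 2) ((Fin n → ZMod 2) ⧸ V) :=
    hli.fintype_card_le_finrank
  have hq : finrank (ZMod 2) ((Fin n → ZMod 2) ⧸ V) + finrank (ZMod 2) V = n := by
    have := Submodule.finrank_quotient_add_finrank V
    simpa using this
  have htop : Submodule.span (ZMod 2) (Set.range b) = ⊤ := by
    rw [eq_top_iff]
    rintro y -
    obtain ⟨w, rfl⟩ := V.mkQ_surjective y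
    have hw : w = ∑ i, w i • (Pi.single i (1 : ZMod 2) : Fin n → ZMod 2) := by
      ext j
      simp [Finset.sum_apply, Pi.single_apply]
    rw [hw, map_sum]
    refine Submodule.sum_mem _ fun i _ => ?_
    rw [map_smul]
    exact Submodule.smul_mem _ _ (Submodule.subset_span ⟨i, rfl⟩)
  have hz : q z ∈ Submodule.span (ZMod 2) (Set.range (b ∘ a)) := by
    rw [hspan, htop]; trivial
  rw [Submodule.mem_span_range_iff_exists_fun] at hz
  obtain ⟨c, hc⟩ := hz
  let u : Fin n → ZMod 2 := ∑ i, c i • (Pi.single (a i) (1 : ZMod 2) : Fin n → ZMod 2)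
  have hu : q u = q z := by
    rw [← hc]
    simp only [u, map_sum, map_smul]
    rfl
  refine ⟨u - z, ?_, ?_⟩
  · have : q (u - z) = 0 := by rw [map_sub, hu, sub_self]
    exact (Submodule.Quotient.mk_eq_zero V).1 this
  · have hzu : z + (u - z) = u := by abel
    rw [hzu]
    have hwt : wt u ≤ Fintype.card κ := by
      unfold wt
      have hsub : (univ.filter fun i => u i ≠ 0) ⊆ univ.image a := by
        intro i hi
        rw [mem_filter] at hi
        by_contra hcon
        apply hi.2
        simp only [u, Finset.sum_apply, Pi.smul_apply, smul_eq_mul]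
        refine Finset.sum_eq_zero fun j _ => ?_
        have : i ≠ a j := by
          rintro rfl
          exact hcon (mem_image_of_mem a (mem_univ j))
        simp [Pi.single_apply, this]
      exact (card_le_card hsub).trans (card_image_le.trans (by simp))
    omega

end Pool.Agent.Q127.F6
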