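import Mathlib
import Pool.Agent.Q127.F6.Basic

set_option autoImplicit false

namespace Pool.Agent.Q127.F6

open Finset Module

/-- the nontrivial character of `ZMod 2` -/
def chi (x : ZMod 2) : ℤ := if x = 0 then 1 else -1

theorem chi_add : ∀ x y : ZMod 2, chi (x + y) = chi x * chi y := by decide
theorem chi_zero : chi 0 = 1 := by decide
theorem chi_mul_self : ∀ x : ZMod 2, chi x * chi x = 1 := by decide
theorem chi_of_ne_zero : ∀ x : ZMod 2, x ≠ 0 → chi x = -1 := by decide

theorem sum_chi {n : ℕ} (y : Fin n → ZMod 2) : ∑ i, chi (y i) = (n : ℤ) - 2 * wt y := by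
  have h : ∀ i, chi (y i) = 1 - 2 * (if y i ≠ 0 then 1 else 0) := by
    intro i
    unfold chi
    by_cases h : y i = 0 <;> simp [h]
  simp_rw [h]
  rw [sum_sub_distrib, ← mul_sum]
  unfold wt
  rw [card_filter]
  push_cast
  simp

variable {m : ℕ}

/-- the bilinear form -/
def dot (a w : Fin m → ZMod 2) : ZMod 2 := ∑ k, a k * w k

theorem dot_add_left (a b w : Fin m → ZMod 2) : dot (a + b) w = dot a w + dot b w := by
  unfold dot
  rw [← sum_add_distrib]
  exact sum_congr rfl fun k _ => by rw [Pi.add_apply]; ring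

theorem dot_add_right (a v w : Fin m → ZMod 2) : dot a (v + w) = dot a v + dot a w := by
  unfold dot
  rw [← sum_add_distrib]
  exact sum_congr rfl fun k _ => by rw [Pi.add_apply]; ring

theorem dot_single (k : Fin m) (w : Fin m → ZMod 2) : dot (Pi.single k 1) w = w k := by
  unfold dot
  rw [Finset.sum_eq_single k]
  · simp
  · intro b _ hb
    simp [hb]
  · intro h
    exact absurd (mem_univ k) h

theorem dot_single_right (k : Fin m) (w : Fin m → ZMod 2) : dot w (Pi.single k 1) = w k := by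
  unfold dot
  rw [Finset.sum_eq_single k]
  · simp
  · intro b _ hb
    simp [hb]
  · intro h
    exact absurd (mem_univ k) h

theorem dot_zero_right (a : Fin m → ZMod 2) : dot a 0 = 0 := by
  unfold dot; simp

theorem sum_chi_dot (w : Fin m → ZMod 2) :
    ∑ a : Fin m → ZMod 2, chi (dot a w) = if w = 0 then (2 : ℤ) ^ m else 0 := by
  classical
  split_ifs with h
  · subst h
    simp [dot_zero_right, chi_zero, ZMod.card]
  · obtain ⟨k, hk⟩ := Function.ne_iff.1 h
    rw [Pi.zero_apply] at hk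
    have h1 : ∑ a : Fin m → ZMod 2, chi (dot a w) =
        ∑ a : Fin m → ZMod 2, chi (dot (a + Pi.single k 1) w) :=
      (Equiv.sum_comp (Equiv.addRight (Pi.single k 1)) (fun a => chi (dot a w))).symm
    have h2 : ∑ a : Fin m → ZMod 2, chi (dot (a + Pi.single k 1) w) =
        - ∑ a : Fin m → ZMod 2, chi (dot a w) := by
      rw [← sum_neg_distrib]
      refine sum_congr rfl fun a _ => ?_
      rw [dot_add_left, dot_single, chi_add, chi_of_ne_zero _ hk]
      ring
    linarith

/-- codewords of the first-order Reed-Muller code, coordinates indexed through `e` -/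
def cw {n : ℕ} (e : Fin n ≃ (Fin m → ZMod 2)) (p : (Fin m → ZMod 2) × ZMod 2) : Fin n → ZMod 2 :=
  fun i => dot p.1 (e i) + p.2

theorem cw_injective {n : ℕ} (e : Fin n ≃ (Fin m → ZMod 2)) : Function.Injective (cw e) := by
  intro p q h
  have h0 : p.2 = q.2 := by
    have := congrFun h (e.symm 0)
    simpa [cw, dot_zero_right] using this
  have h1 : p.1 = q.1 := by
    funext k
    have := congrFun h (e.symm (Pi.single k 1))
    simpa [cw, dot_single_right, h0] using this
  exact Prod.ext h1 h0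

theorem parseval {n : ℕ} (e : Fin n ≃ (Fin m → ZMod 2)) (x : Fin n → ZMod 2) :
    ∑ a : Fin m → ZMod 2, (∑ i, chi (x i + dot a (e i))) ^ 2 = (n : ℤ) * 2 ^ m := by
  classical
  have h1 : ∀ a : Fin m → ZMod 2, (∑ i, chi (x i + dot a (e i))) ^ 2 =
      ∑ i, ∑ j, chi (x i) * chi (x j) * chi (dot a (e i + e j)) := by
    intro a
    rw [sq, sum_mul_sum]
    refine sum_congr rfl fun i _ => sum_congr rfl fun j _ => ?_
    rw [chi_add, chi_add, dot_add_right, chi_add]
    ring
  simp_rw [h1]
  rw [sum_comm]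
  have h2 : ∀ i, ∑ a : Fin m → ZMod 2, ∑ j, chi (x i) * chi (x j) * chi (dot a (e i + e j)) =
      2 ^ m := by
    intro i
    rw [sum_comm]
    simp_rw [← mul_sum, sum_chi_dot]
    rw [Finset.sum_eq_single i]
    · have : e i + e i = 0 := by
        funext k
        rw [Pi.add_apply, Pi.zero_apply]
        exact CharTwo.add_self_eq_zero _
      rw [if_pos this, chi_mul_self, one_mul]
    · intro j _ hj
      have : e i + e j ≠ 0 := by
        intro h
        apply hj
        apply e.injective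
        funext k
        have := congrFun h k
        rw [Pi.add_apply, Pi.zero_apply] at this
        exact (CharTwo.add_eq_zero.1 this).symm
      rw [if_neg this, mul_zero]
    · intro h
      exact absurd (mem_univ i) h
  simp_rw [h2]
  simp

theorem covering (e : Fin (4 ^ m) ≃ (Fin (2 * m) → ZMod 2)) (x : Fin (4 ^ m) → ZMod 2) :
    ∃ p, 2 * wt (x + cw e p) + 2 ^ m ≤ 4 ^ m := by
  classical
  obtain ⟨a, ha⟩ : ∃ a : Fin (2 * m) → ZMod 2,
      (4 : ℤ) ^ m ≤ (∑ i, chi (x i + dot a (e i))) ^ 2 := by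
    by_contra hcon
    push Not at hcon
    have h := parseval e x
    have h2 : ∑ a : Fin (2 * m) → ZMod 2, (∑ i, chi (x i + dot a (e i))) ^ 2 <
        ∑ _a : Fin (2 * m) → ZMod 2, (4 : ℤ) ^ m :=
      sum_lt_sum_of_nonempty univ_nonempty fun a _ => hcon a
    rw [h] at h2
    simp only [sum_const, card_univ, Fintype.card_fun, Fintype.card_fin, ZMod.card,
      nsmul_eq_mul] at h2
    push_cast at h2
    have : (2 : ℤ) ^ (2 * m) = 4 ^ m := by rw [pow_mul]; norm_num
    rw [this] at h2
    exact lt_irrefl _ h2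
  have h4 : (4 : ℤ) ^ m = (2 ^ m) ^ 2 := by rw [← pow_mul, mul_comm, pow_mul]; norm_num
  rw [h4] at ha
  have habs : (2 : ℤ) ^ m ≤ |∑ i, chi (x i + dot a (e i))| := by
    have := sq_le_sq.1 ha
    rwa [abs_of_pos (by positivity : (0 : ℤ) < 2 ^ m)] at this
  rcases le_abs.1 habs with h | h
  · refine ⟨(a, 0), ?_⟩
    have hs := sum_chi (x + cw e (a, 0))
    have : ∑ i, chi ((x + cw e (a, 0)) i) = ∑ i, chi (x i + dot a (e i)) := by
      refine sum_congr rfl fun i _ => ?_
      simp [cw]
    rw [this] at hs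
    rw [hs] at h
    push_cast at h
    have h' : (2 * wt (x + cw e (a, 0)) + 2 ^ m : ℤ) ≤ 4 ^ m := by linarith
    exact_mod_cast h'
  · refine ⟨(a, 1), ?_⟩
    have hs := sum_chi (x + cw e (a, 1))
    have : ∑ i, chi ((x + cw e (a, 1)) i) = - ∑ i, chi (x i + dot a (e i)) := by
      rw [← sum_neg_distrib]
      refine sum_congr rfl fun i _ => ?_
      have h1 : (x + cw e (a, 1)) i = (x i + dot a (e i)) + 1 := by
        simp [cw, add_assoc]
      rw [h1, chi_add, chi_of_ne_zero 1 one_ne_zero]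
      ring
    rw [this] at hs
    rw [hs] at h
    push_cast at h
    have h' : (2 * wt (x + cw e (a, 1)) + 2 ^ m : ℤ) ≤ 4 ^ m := by linarith
    exact_mod_cast h'

theorem wt_add_le {n : ℕ} (x y : Fin n → ZMod 2) : wt (x + y) ≤ wt x + wt y := by
  classical
  unfold wt
  refine (card_le_card (t := (univ.filter fun i => x i ≠ 0) ∪ (univ.filter fun i => y i ≠ 0))
    ?_).trans (card_union_le _ _)
  intro i hi
  rw [mem_filter] at hi
  rw [mem_union, mem_filter, mem_filter]
  by_contra hcon
  push Not at hcon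
  have h1 := hcon.1 (mem_univ i)
  have h2 := hcon.2 (mem_univ i)
  apply hi.2
  rw [Pi.add_apply, h1, h2, add_zero]

theorem wt_add_one {n : ℕ} (x : Fin n → ZMod 2) : wt (x + 1) + wt x = n := by
  have h1 := sum_chi x
  have h2 := sum_chi (x + 1)
  have : ∑ i, chi ((x + 1) i) = - ∑ i, chi (x i) := by
    rw [← sum_neg_distrib]
    refine sum_congr rfl fun i _ => ?_
    rw [Pi.add_apply, Pi.one_apply, chi_add, chi_of_ne_zero 1 one_ne_zero]
    ring
  rw [this, h1] at h2
  have : (wt (x + 1) + wt x : ℤ) = n := by linarith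
  exact_mod_cast this

open scoped Pointwise

/-- The main construction. -/
theorem main (m : ℕ) : ∃ (A : Set (Fin (4 ^ m) → ZMod 2)) (S : Finset (Fin (4 ^ m) → ZMod 2)),
    S.card = 2 * 4 ^ m ∧ A + (S : Set (Fin (4 ^ m) → ZMod 2)) = Set.univ ∧
    ∀ (x : Fin (4 ^ m) → ZMod 2) (V : Submodule (ZMod 2) (Fin (4 ^ m) → ZMod 2)),
      (∀ v ∈ V, x + v ∈ A + A) → 2 ^ m + finrank (ZMod 2) V ≤ 4 ^ m := by
  classical
  have hc : Fintype.card (Fin (2 * m) → ZMod 2) = 4 ^ m := by
    simp [ZMod.card, pow_mul]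
  let e : Fin (4 ^ m) ≃ (Fin (2 * m) → ZMod 2) := (Fintype.equivFinOfCardEq hc).symm
  refine ⟨{x | 2 * wt x + 2 ^ m ≤ 4 ^ m}, univ.image (cw e), ?_, ?_, ?_⟩
  · rw [card_image_of_injective _ (cw_injective e), card_univ, Fintype.card_prod, hc, ZMod.card,
      mul_comm]
  · rw [Set.eq_univ_iff_forall]
    intro x
    obtain ⟨p, hp⟩ := covering e x
    refine Set.mem_add.2 ⟨x + cw e p, hp, cw e p, ?_, ?_⟩
    · simp
    · funext i
      simp only [Pi.add_apply]
      rw [add_assoc, CharTwo.add_self_eq_zero, add_zero]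
  · intro x V hV
    obtain ⟨v, hv, hw⟩ := exists_small_weight V (x + 1)
    obtain ⟨a, ha, b, hb, hab⟩ := Set.mem_add.1 (hV v hv)
    have h1 : wt (x + v) ≤ wt a + wt b := by rw [← hab]; exact wt_add_le a b
    have h2 := wt_add_one (x + v)
    have h3 : x + v + 1 = x + 1 + v := by abel
    rw [h3] at h2
    change 2 * wt a + 2 ^ m ≤ 4 ^ m at ha
    change 2 * wt b + 2 ^ m ≤ 4 ^ m at hb
    omega

end Pool.Agent.Q127.F6
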